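import Mathlib

/-! The language of general game models, its semantics, and a Hilbert system
(problem `MP_4a7d17_lc`). -/

namespace Pool.Agent.Q297.GGM

universe u

/-- The modalities of player `i`: preference, epistemic indistinguishability, action freedom. -/
inductive Mod (N : Type) : Type
  | le (i : N) : Mod N
  | sim (i : N) : Mod N
  | app (i : N) : Mod N

/-- Formulas of the language `L_N`. -/
inductive Form (N : Type) : Type
  | var (n : ℕ) : Form N
  | neg (φ : Form N) : Form N
  | or (φ ψ : Form N) : Form N
  | dia (m : Mod N) (φ : Form N) : Form N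

namespace Form

variable {N : Type}

/-- Implication. -/
def imp (φ ψ : Form N) : Form N := .or (.neg φ) ψ

/-- The box `[m]φ = ¬⟨m⟩¬φ`. -/
def box (m : Mod N) (φ : Form N) : Form N := .neg (.dia m (.neg φ))

/-- Boolean value of a formula, diamond formulas being treated as atoms. -/
def bval (v : ℕ → Prop) (d : Mod N → Form N → Prop) : Form N → Prop
  | .var n => v n
  | .neg φ => ¬ bval v d φ
  | .or φ ψ => bval v d φ ∨ bval v d ψ
  | .dia m φ => d m φ

/-- Substitution instances of classical tautologies. -/
def Taut (φ : Form N) : Prop := ∀ v d, bval v d φ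

end Form

/-- A general game model for the set of players `N`: action sets `A i`, reflexive and transitive
preference relations on the set of all strategy profiles, a nonempty set `W` of profiles (the
worlds) and a valuation. -/
structure GameModel (N : Type) where
  /-- the actions of player `i` -/
  A : N → Type u
  /-- the preference relations -/
  le : N → (∀ i, A i) → (∀ i, A i) → Prop
  le_refl : ∀ i s, le i s s
  le_trans : ∀ i s t r, le i s t → le i t r → le i s r
  /-- the worlds -/
  W : Set (∀ i, A i)
  nonempty : W.Nonempty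
  /-- the valuation -/
  V : ℕ → Set (∀ i, A i)

/-- The relation interpreting a modality. -/
def GameModel.rel {N : Type} (M : GameModel.{u} N) :
    Mod N → (∀ i, M.A i) → (∀ i, M.A i) → Prop
  | .le i, s, t => M.le i s t
  | .sim i, s, t => s i = t i
  | .app i, s, t => ∀ j, j ≠ i → s j = t j

/-- Truth at a world; the quantification of diamonds is restricted to `W`. -/
def GameModel.Sat {N : Type} (M : GameModel.{u} N) : Form N → (∀ i, M.A i) → Prop
  | .var n, s => s ∈ M.V n
  | .neg φ, s => ¬ M.Sat φ s
  | .or φ ψ, s => M.Sat φ s ∨ M.Sat ψ s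
  | .dia m φ, s => ∃ t ∈ M.W, M.rel m s t ∧ M.Sat φ t

/-- Validity on all general game models for `N`. -/
def Valid {N : Type} (φ : Form N) : Prop :=
  ∀ M : GameModel.{u} N, ∀ s ∈ M.W, M.Sat φ s

open Form in
/-- The Hilbert system. -/
inductive Prov (N : Type) : Form N → Prop
  | taut {φ : Form N} (h : Taut φ) : Prov N φ
  | k (m : Mod N) (φ ψ : Form N) : Prov N (imp (box m (imp φ ψ)) (imp (box m φ) (box m ψ)))
  | dual₁ (m : Mod N) (φ : Form N) : Prov N (imp (dia m φ) (neg (box m (neg φ))))
  | dual₂ (m : Mod N) (φ : Form N) : Prov N (imp (neg (box m (neg φ))) (dia m φ))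
  | refl (m : Mod N) (φ : Form N) : Prov N (imp φ (dia m φ))
  | trans (m : Mod N) (φ : Form N) : Prov N (imp (dia m (dia m φ)) (dia m φ))
  | symm_sim (i : N) (φ : Form N) : Prov N (imp φ (box (.sim i) (dia (.sim i) φ)))
  | symm_app (i : N) (φ : Form N) : Prov N (imp φ (box (.app i) (dia (.app i) φ)))
  | incl (i j : N) (h : i ≠ j) (φ : Form N) : Prov N (imp (dia (.app i) φ) (dia (.sim j) φ))
  | two (i j : N) (h : i ≠ j) (h₂ : ∀ k, k = i ∨ k = j) (φ : Form N) :
      Prov N (imp (dia (.sim j) φ) (dia (.app i) φ))
  | mp {φ ψ : Form N} (h₁ : Prov N (imp φ ψ)) (h₂ : Prov N φ) : Prov N ψ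
  | nec (m : Mod N) {φ : Form N} (h : Prov N φ) : Prov N (box m φ)

end Pool.Agent.Q297.GGM
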