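import Pool.Agent.Q297.GGM.Defs

/-! Soundness and completeness of the Hilbert system for general game models. -/

namespace Pool.Agent.Q297.GGM

universe u

open Form

variable {N : Type}

/-! ### Soundness -/

theorem sat_imp (M : GameModel.{u} N) {φ ψ : Form N} {s : ∀ i, M.A i} :
    M.Sat (imp φ ψ) s ↔ (M.Sat φ s → M.Sat ψ s) := by
  simp only [imp, GameModel.Sat]; tauto

theorem sat_box (M : GameModel.{u} N) {m : Mod N} {φ : Form N} {s : ∀ i, M.A i} :
    M.Sat (box m φ) s ↔ ∀ t ∈ M.W, M.rel m s t → M.Sat φ t := by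
  simp only [box, GameModel.Sat]; push Not; rfl

theorem sat_bval (M : GameModel.{u} N) (φ : Form N) (s : ∀ i, M.A i) :
    M.Sat φ s ↔ φ.bval (fun n => s ∈ M.V n) (fun m ψ => M.Sat (.dia m ψ) s) := by
  induction φ with
  | var n => rfl
  | neg φ ih => exact not_congr ih
  | or φ ψ ih₁ ih₂ => exact or_congr ih₁ ih₂
  | dia m φ _ => rfl

theorem sound {φ : Form N} (h : Prov N φ) : Valid.{u} φ := by
  induction h with
  | taut h => intro M s _; rw [sat_bval]; exact h _ _
  | k m φ ψ =>
    intro M s _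
    simp only [sat_imp, sat_box]
    intro h₁ h₂ t ht hr; exact h₁ t ht hr (h₂ t ht hr)
  | dual₁ m φ =>
    intro M s _
    rw [sat_imp]
    intro h h'
    obtain ⟨t, ht, hr, hs⟩ := h
    exact (sat_box M).1 h' t ht hr hs
  | dual₂ m φ =>
    intro M s _
    rw [sat_imp]
    intro h
    by_contra hc
    apply h
    refine (sat_box M).2 fun t ht hr hs => hc ⟨t, ht, hr, hs⟩
  | refl m φ =>
    intro M s hs
    rw [sat_imp]
    intro h
    refine ⟨s, hs, ?_, h⟩
    cases m with
    | le i => exact M.le_refl i s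
    | sim i => rfl
    | app i => intro j _; rfl
  | trans m φ =>
    intro M s _
    rw [sat_imp]
    rintro ⟨t, _, h₁, r, hr, h₂, h₃⟩
    refine ⟨r, hr, ?_, h₃⟩
    cases m with
    | le i => exact M.le_trans i _ _ _ h₁ h₂
    | sim i => exact Eq.trans h₁ h₂
    | app i => intro j hj; exact (h₁ j hj).trans (h₂ j hj)
  | symm_sim i φ =>
    intro M s hs
    rw [sat_imp, sat_box]
    intro h t _ hr
    exact ⟨s, hs, Eq.symm hr, h⟩
  | symm_app i φ =>
    intro M s hs
    rw [sat_imp, sat_box]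
    intro h t _ hr
    exact ⟨s, hs, fun j hj => (hr j hj).symm, h⟩
  | incl i j h φ =>
    intro M s _
    rw [sat_imp]
    rintro ⟨t, ht, hr, hs⟩
    exact ⟨t, ht, hr j h.symm, hs⟩
  | two i j h h₂ φ =>
    intro M s _
    rw [sat_imp]
    rintro ⟨t, ht, hr, hs⟩
    refine ⟨t, ht, fun k hk => ?_, hs⟩
    rcases h₂ k with rfl | rfl
    · exact absurd rfl hk
    · exact hr
  | mp _ _ ih₁ ih₂ =>
    intro M s hs
    exact (sat_imp M).1 (ih₁ M s hs) (ih₂ M s hs)
  | nec m _ ih =>
    intro M s _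
    rw [sat_box]
    intro t ht _
    exact ih M t ht

/-! ### Maximal consistent sets -/

/-- Theories: sets of formulas with all theorems, closed under modus ponens. -/
structure IsTh (T : Set (Form N)) : Prop where
  prov : ∀ φ, Prov N φ → φ ∈ T
  mp : ∀ φ ψ, imp φ ψ ∈ T → φ ∈ T → ψ ∈ T

theorem IsTh.tc {T : Set (Form N)} (hT : IsTh T) {φ ψ : Form N} (h : Taut (imp φ ψ))
    (hφ : φ ∈ T) : ψ ∈ T := hT.mp _ _ (hT.prov _ (.taut h)) hφ

theorem IsTh.tc2 {T : Set (Form N)} (hT : IsTh T) {φ χ ψ : Form N}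
    (h : Taut (imp φ (imp χ ψ))) (hφ : φ ∈ T) (hχ : χ ∈ T) : ψ ∈ T :=
  hT.mp _ _ (hT.tc h hφ) hχ

/-- Maximal consistent sets. -/
structure MCS (N : Type) where
  /-- the set -/
  S : Set (Form N)
  th : IsTh S
  cons : ∀ φ, φ ∈ S → neg φ ∉ S
  compl : ∀ φ, φ ∈ S ∨ neg φ ∈ S

theorem lindenbaum {T : Set (Form N)} (hT : IsTh T) {ψ : Form N} (hψ : ψ ∉ T) :
    ∃ M : MCS N, T ⊆ M.S ∧ ψ ∉ M.S := by
  obtain ⟨M, hTM, hM⟩ := zorn_subset_nonempty {T : Set (Form N) | IsTh T ∧ ψ ∉ T}
    (fun c hc hchain hne => by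
      refine ⟨⋃₀ c, ⟨⟨?_, ?_⟩, ?_⟩, fun s hs => Set.subset_sUnion_of_mem hs⟩
      · intro φ hφ
        obtain ⟨s, hs⟩ := hne
        exact ⟨s, hs, (hc hs).1.prov φ hφ⟩
      · rintro φ χ ⟨s, hs, h₁⟩ ⟨t, ht, h₂⟩
        rcases hchain.total hs ht with h | h
        · exact ⟨t, ht, (hc ht).1.mp _ _ (h h₁) h₂⟩
        · exact ⟨s, hs, (hc hs).1.mp _ _ h₁ (h h₂)⟩
      · rintro ⟨s, hs, h⟩
        exact (hc hs).2 h) T ⟨hT, hψ⟩
  have hth : IsTh M := hM.prop.1
  have hψM : ψ ∉ M := hM.prop.2
  have key : ∀ χ, χ ∉ M → imp χ ψ ∈ M := by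
    intro χ hχ
    by_contra hc
    have hT' : IsTh {φ | imp χ φ ∈ M} := by
      refine ⟨fun φ hφ => ?_, fun φ φ' h₁ h₂ => ?_⟩
      · refine hth.tc ?_ (hth.prov φ hφ)
        intro v d; simp only [imp, bval]; tauto
      · refine hth.tc2 ?_ h₁ h₂
        intro v d; simp only [imp, bval]; tauto
    have hsub : M ⊆ {φ | imp χ φ ∈ M} := by
      intro φ hφ
      refine hth.tc ?_ hφ
      intro v d; simp only [imp, bval]; tauto
    have := hM.eq_of_subset ⟨hT', hc⟩ hsub
    apply hχ
    rw [this]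
    refine hth.prov _ (.taut ?_)
    intro v d; simp only [imp, bval]; tauto
  refine ⟨⟨M, hth, ?_, ?_⟩, hTM, hψM⟩
  · intro φ h₁ h₂
    apply hψM
    refine hth.tc2 ?_ h₁ h₂
    intro v d; simp only [imp, bval]; tauto
  · intro φ
    by_contra hc
    push Not at hc
    apply hψM
    refine hth.tc2 ?_ (key _ hc.1) (key _ hc.2)
    intro v d; simp only [imp, bval]; tauto

theorem MCS.mem_neg (M : MCS N) {φ : Form N} : neg φ ∈ M.S ↔ φ ∉ M.S :=
  ⟨fun h h' => M.cons _ h' h, fun h => (M.compl φ).resolve_left h⟩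

theorem MCS.mem_imp (M : MCS N) {φ ψ : Form N} : imp φ ψ ∈ M.S ↔ (φ ∈ M.S → ψ ∈ M.S) := by
  constructor
  · exact M.th.mp _ _
  · intro h
    by_cases hφ : φ ∈ M.S
    · refine M.th.tc ?_ (h hφ)
      intro v d; simp only [imp, bval]; tauto
    · refine M.th.tc ?_ (M.mem_neg.2 hφ)
      intro v d; simp only [imp, bval]; tauto

theorem MCS.mem_or (M : MCS N) {φ ψ : Form N} : or φ ψ ∈ M.S ↔ (φ ∈ M.S ∨ ψ ∈ M.S) := by
  constructor
  · intro h
    by_contra hc
    push Not at hc
    have h₂ := M.mem_neg.2 hc.1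
    apply hc.2
    refine M.th.tc2 ?_ h h₂
    intro v d; simp only [imp, bval]; tauto
  · rintro (h | h)
    · refine M.th.tc ?_ h
      intro v d; simp only [imp, bval]; tauto
    · refine M.th.tc ?_ h
      intro v d; simp only [imp, bval]; tauto

/-- The canonical relation. -/
def Rc (m : Mod N) (T T' : MCS N) : Prop := ∀ φ, φ ∈ T'.S → dia m φ ∈ T.S

theorem Rc.refl (m : Mod N) (T : MCS N) : Rc m T T := fun φ h =>
  T.th.mp _ _ (T.th.prov _ (.refl m φ)) h

theorem Rc.trans {m : Mod N} {T T' T'' : MCS N} (h₁ : Rc m T T') (h₂ : Rc m T' T'') :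
    Rc m T T'' := fun φ h =>
  T.th.mp _ _ (T.th.prov _ (.trans m φ)) (h₁ _ (h₂ _ h))

theorem Rc.symm_of {m : Mod N} (hm : ∀ φ, Prov N (imp φ (box m (dia m φ)))) {T T' : MCS N}
    (h : Rc m T T') : Rc m T' T := by
  intro φ hφ
  by_contra hc
  have h₁ : dia m (neg (dia m φ)) ∈ T.S := h _ (T'.mem_neg.2 hc)
  exact T.cons _ h₁ (T.th.mp _ _ (T.th.prov _ (hm φ)) hφ)

theorem exists_succ {m : Mod N} {T : MCS N} {φ : Form N} (h : dia m φ ∈ T.S) :
    ∃ T' : MCS N, Rc m T T' ∧ φ ∈ T'.S := by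
  have hk : ∀ χ χ', box m (imp χ χ') ∈ T.S → box m χ ∈ T.S → box m χ' ∈ T.S := by
    intro χ χ' h₁ h₂
    exact T.th.mp _ _ (T.th.mp _ _ (T.th.prov _ (.k m χ χ')) h₁) h₂
  have ht : ∀ χ χ', Taut (imp χ χ') → box m χ ∈ T.S → box m χ' ∈ T.S := by
    intro χ χ' h₁ h₂
    exact hk _ _ (T.th.prov _ (.nec m (.taut h₁))) h₂
  have hT' : IsTh {χ | box m (imp φ χ) ∈ T.S} := by
    refine ⟨fun χ hχ => ?_, fun χ χ' h₁ h₂ => ?_⟩
    · refine T.th.prov _ (.nec m (.mp (.taut ?_) hχ))
      intro v d; simp only [imp, bval]; tauto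
    · refine hk (imp φ χ) _ ?_ h₂
      refine ht _ _ ?_ h₁
      intro v d; simp only [imp, bval]; tauto
  have hbot : neg φ ∉ {χ | box m (imp φ χ) ∈ T.S} := by
    intro hc
    have h₁ : box m (neg φ) ∈ T.S := by
      refine ht _ _ ?_ hc
      intro v d; simp only [imp, bval]; tauto
    exact T.cons _ h₁ (T.th.mp _ _ (T.th.prov _ (.dual₁ m φ)) h)
  obtain ⟨T', hsub, hn⟩ := lindenbaum hT' hbot
  have hφ : φ ∈ T'.S := by
    rcases T'.compl φ with h | h
    · exact h
    · exact absurd h hn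
  refine ⟨T', fun χ hχ => ?_, hφ⟩
  by_contra hc
  have h₁ : box m (neg χ) ∈ T.S := by
    by_contra hc'
    apply hc
    exact T.th.mp _ _ (T.th.prov _ (.dual₂ m χ)) (T.mem_neg.2 hc')
  have h₂ : neg χ ∈ T'.S := by
    apply hsub
    refine ht _ _ ?_ h₁
    intro v d; simp only [imp, bval]; tauto
  exact T'.cons _ hχ h₂

/-! ### Unravelling -/

section Strip

open Classical

variable {α J : Type*}

/-- Remove the longest initial segment of `l` all of whose members satisfy `P`. -/
noncomputable def strip (P : α → Prop) (l : List α) : List α := l.dropWhile (fun a => decide (P a))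

theorem strip_cons_pos {P : α → Prop} {a : α} {l : List α} (h : P a) :
    strip P (a :: l) = strip P l := by
  simp [strip, h]

theorem strip_cons_neg {P : α → Prop} {a : α} {l : List α} (h : ¬ P a) :
    strip P (a :: l) = a :: l := by
  simp [strip, h]

theorem strip_suffix (P : α → Prop) (l : List α) : strip P l <:+ l :=
  List.dropWhile_suffix _

theorem strip_eq_some {K : J → Prop} (hK : ∃ j, K j) (P : J → α → Prop) (l : List α) :
    ∃ j, K j ∧ strip (P j) l = strip (fun a => ∀ j, K j → P j a) l := by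
  induction l with
  | nil => obtain ⟨j, hj⟩ := hK; exact ⟨j, hj, rfl⟩
  | cons a l ih =>
    by_cases h : ∀ j, K j → P j a
    · obtain ⟨j, hj, e⟩ := ih
      refine ⟨j, hj, ?_⟩
      rw [strip_cons_pos (h j hj), e, strip_cons_pos (P := fun a => ∀ j, K j → P j a) h]
    · have h' := h
      push Not at h'
      obtain ⟨j, hj, hn⟩ := h'
      refine ⟨j, hj, ?_⟩
      rw [strip_cons_neg hn, strip_cons_neg (P := fun a => ∀ j, K j → P j a) h]

theorem strip_suffix_all {K : J → Prop} (P : J → α → Prop) (l : List α) {j : J} (hj : K j) :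
    strip (P j) l <:+ strip (fun a => ∀ j, K j → P j a) l := by
  induction l with
  | nil => exact List.suffix_rfl
  | cons a l ih =>
    by_cases h : ∀ j, K j → P j a
    · rw [strip_cons_pos (h j hj), strip_cons_pos (P := fun a => ∀ j, K j → P j a) h]
      exact ih
    · rw [strip_cons_neg (P := fun a => ∀ j, K j → P j a) h]
      exact strip_suffix _ _

theorem strip_all_eq {K : J → Prop} (hK : ∃ j, K j) (P : J → α → Prop) {l l' : List α}
    (h : ∀ j, K j → strip (P j) l = strip (P j) l') :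
    strip (fun a => ∀ j, K j → P j a) l = strip (fun a => ∀ j, K j → P j a) l' := by
  obtain ⟨j, hj, e⟩ := strip_eq_some hK P l
  obtain ⟨j', hj', e'⟩ := strip_eq_some hK P l'
  have h₁ : strip (fun a => ∀ j, K j → P j a) l <:+ strip (fun a => ∀ j, K j → P j a) l' := by
    rw [← e, h j hj]; exact strip_suffix_all P l' hj
  have h₂ : strip (fun a => ∀ j, K j → P j a) l' <:+ strip (fun a => ∀ j, K j → P j a) l := by
    rw [← e', ← h j' hj']; exact strip_suffix_all P l hj'
  exact h₁.eq_of_length (le_antisymm h₁.length_le h₂.length_le)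

theorem strip_of_forall_not {P : α → Prop} (h : ∀ a, ¬ P a) (l : List α) : strip P l = l := by
  cases l with
  | nil => rfl
  | cons a l => exact strip_cons_neg (h a)

end Strip

/-- The last world of a path (the head of the list is the last step). -/
def last (r : MCS N) : List (Mod N × MCS N) → MCS N
  | [] => r
  | (_, T) :: _ => T

/-- The paths of the canonical model which start at `r`. -/
def Path (r : MCS N) : List (Mod N × MCS N) → Prop
  | [] => True
  | (m, T) :: l => Rc m (last r l) T ∧ Path r l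

/-- The steps which do not change the choice of player `j`. -/
def Cnt (j : N) (a : Mod N × MCS N) : Prop := a.1 = .sim j ∨ ∃ i, i ≠ j ∧ a.1 = .app i

theorem Path.suffix {r : MCS N} {l l' : List (Mod N × MCS N)} (h : l' <:+ l) (hl : Path r l) :
    Path r l' := by
  obtain ⟨t, rfl⟩ := h
  induction t with
  | nil => exact hl
  | cons a t ih => exact ih hl.2

theorem rc_strip {r : MCS N} {m : Mod N} (hm : ∀ φ, Prov N (imp φ (box m (dia m φ))))
    {P : Mod N × MCS N → Prop}
    (hP : ∀ a, P a → ∀ T T' : MCS N, Rc a.1 T T' → Rc m T T')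
    {l : List (Mod N × MCS N)} (hl : Path r l) : Rc m (last r l) (last r (strip P l)) := by
  induction l with
  | nil => exact Rc.refl _ _
  | cons a l ih =>
    by_cases h : P a
    · rw [strip_cons_pos h]
      exact (Rc.symm_of hm (hP a h _ _ hl.1)).trans (ih hl.2)
    · rw [strip_cons_neg h]
      exact Rc.refl _ _

theorem rc_of_strip_eq {r : MCS N} {m : Mod N} (hm : ∀ φ, Prov N (imp φ (box m (dia m φ))))
    {P : Mod N × MCS N → Prop}
    (hP : ∀ a, P a → ∀ T T' : MCS N, Rc a.1 T T' → Rc m T T')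
    {l l' : List (Mod N × MCS N)} (hl : Path r l) (hl' : Path r l')
    (h : strip P l = strip P l') : Rc m (last r l) (last r l') := by
  have h₁ := rc_strip hm hP hl
  have h₂ := rc_strip hm hP hl'
  rw [← h] at h₂
  exact h₁.trans (Rc.symm_of hm h₂)

theorem rc_incl {i j : N} (h : i ≠ j) {T T' : MCS N} (hr : Rc (.app i) T T') :
    Rc (.sim j) T T' := fun φ hφ =>
  T.th.mp _ _ (T.th.prov _ (.incl i j h φ)) (hr φ hφ)

theorem rc_two {i j : N} (h : i ≠ j) (h₂ : ∀ k, k = i ∨ k = j) {T T' : MCS N}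
    (hr : Rc (.sim j) T T') : Rc (.app i) T T' := fun φ hφ =>
  T.th.mp _ _ (T.th.prov _ (.two i j h h₂ φ)) (hr φ hφ)

theorem cnt_sim {j : N} (a : Mod N × MCS N) (h : Cnt j a) (T T' : MCS N)
    (hr : Rc a.1 T T') : Rc (.sim j) T T' := by
  rcases h with h | ⟨i, hi, h⟩
  · rw [h] at hr; exact hr
  · rw [h] at hr; exact rc_incl hi hr

variable [Nontrivial N]

theorem cnt_app {i : N} (a : Mod N × MCS N) (h : ∀ j, j ≠ i → Cnt j a) (T T' : MCS N)
    (hr : Rc a.1 T T') : Rc (.app i) T T' := by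
  obtain ⟨m, X⟩ := a
  obtain ⟨j₀, hj₀⟩ := exists_ne i
  cases m with
  | le k =>
    rcases h j₀ hj₀ with h | ⟨_, _, h⟩ <;> exact absurd h (by simp)
  | sim k =>
    have h' : ∀ j, j ≠ i → k = j := by
      intro j hj
      rcases h j hj with h | ⟨_, _, h⟩
      · simpa using h
      · exact absurd h (by simp)
    have hk : i ≠ k := by
      rw [h' j₀ hj₀]; exact hj₀.symm
    refine rc_two hk (fun j => ?_) hr
    by_cases hj : j = i
    · exact Or.inl hj
    · exact Or.inr (h' j hj).symm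
  | app k =>
    have hk : k = i := by
      by_contra hne
      rcases h k hne with h | ⟨i', hi', h⟩
      · exact absurd h (by simp)
      · simp only [Mod.app.injEq] at h
        exact hi' h.symm
    rw [← hk]; exact hr

theorem not_cnt_all (a : Mod N × MCS N) : ¬ ∀ j : N, True → Cnt j a := by
  intro h
  obtain ⟨m, X⟩ := a
  obtain ⟨i, j, hij⟩ := exists_pair_ne N
  cases m with
  | le k => rcases h i trivial with h | ⟨_, _, h⟩ <;> exact absurd h (by simp)
  | sim k =>
    have hi : k = i := by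
      rcases h i trivial with h | ⟨_, _, h⟩
      · simpa using h
      · exact absurd h (by simp)
    have hj : k = j := by
      rcases h j trivial with h | ⟨_, _, h⟩
      · simpa using h
      · exact absurd h (by simp)
    exact hij (hi.symm.trans hj)
  | app k =>
    rcases h k trivial with h | ⟨i', hi', h⟩
    · exact absurd h (by simp)
    · simp only [Mod.app.injEq] at h
      exact hi' h.symm

/-- The profile of a path. -/
noncomputable def prof (l : List (Mod N × MCS N)) : N → List (Mod N × MCS N) :=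
  fun j => strip (Cnt j) l

theorem prof_injective {l l' : List (Mod N × MCS N)} (h : prof l = prof l') : l = l' := by
  have := strip_all_eq (K := fun _ : N => True) ⟨(exists_pair_ne N).choose, trivial⟩
    (fun j => Cnt j) (l := l) (l' := l') (fun j _ => congrFun h j)
  rwa [strip_of_forall_not not_cnt_all, strip_of_forall_not not_cnt_all] at this

/-- The general game model of a maximal consistent set. -/
noncomputable def model (r : MCS N) : GameModel.{0} N where
  A _ := List (Mod N × MCS N)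
  le i s t := s = t ∨ ∃ l l', s = prof l ∧ t = prof l' ∧ Rc (.le i) (last r l) (last r l')
  le_refl _ _ := Or.inl rfl
  le_trans i s t q := by
    rintro (rfl | ⟨l, l', h₁, h₂, h₃⟩) (rfl | ⟨k, k', g₁, g₂, g₃⟩)
    · exact Or.inl rfl
    · exact Or.inr ⟨k, k', g₁, g₂, g₃⟩
    · exact Or.inr ⟨l, l', h₁, h₂, h₃⟩
    · have : l' = k := prof_injective (h₂.symm.trans g₁)
      subst this
      exact Or.inr ⟨l, k', h₁, g₂, h₃.trans g₃⟩
  W := {s | ∃ l, Path r l ∧ s = prof l}
  nonempty := ⟨prof [], [], trivial, rfl⟩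
  V n := {s | ∃ l, Path r l ∧ s = prof l ∧ var n ∈ (last r l).S}

theorem truth (r : MCS N) (φ : Form N) : ∀ l, Path r l →
    ((model r).Sat φ (prof l) ↔ φ ∈ (last r l).S) := by
  induction φ with
  | var n =>
    intro l hl
    constructor
    · rintro ⟨l', _, e, h⟩
      rwa [prof_injective e]
    · intro h; exact ⟨l, hl, rfl, h⟩
  | neg φ ih =>
    intro l hl
    simp only [GameModel.Sat]
    rw [ih l hl, MCS.mem_neg]
  | or φ ψ ih₁ ih₂ =>
    intro l hl
    simp only [GameModel.Sat]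
    rw [ih₁ l hl, ih₂ l hl, MCS.mem_or]
  | dia m φ ih =>
    intro l hl
    constructor
    · rintro ⟨t, ⟨l', hl', rfl⟩, hr, hs⟩
      have hs' := (ih l' hl').1 hs
      suffices h : Rc m (last r l) (last r l') from h φ hs'
      cases m with
      | le i =>
        rcases hr with h | ⟨k, k', e, e', h⟩
        · rw [prof_injective h]; exact Rc.refl _ _
        · rw [prof_injective e, prof_injective e']; exact h
      | sim i =>
        exact rc_of_strip_eq (fun φ => .symm_sim i φ) cnt_sim hl hl' hr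
      | app i =>
        have := strip_all_eq (K := fun j : N => j ≠ i) (exists_ne i) (fun j => Cnt j)
          (l := l) (l' := l') hr
        exact rc_of_strip_eq (fun φ => .symm_app i φ) cnt_app hl hl' this
    · intro h
      obtain ⟨T', hr, hφ⟩ := exists_succ h
      refine ⟨prof ((m, T') :: l), ⟨(m, T') :: l, ⟨hr, hl⟩, rfl⟩, ?_,
        (ih ((m, T') :: l) ⟨hr, hl⟩).2 hφ⟩
      cases m with
      | le i => exact Or.inr ⟨l, (.le i, T') :: l, rfl, rfl, hr⟩
      | sim i => exact (strip_cons_pos (P := Cnt i) (Or.inl rfl)).symm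
      | app i => exact fun j hj => (strip_cons_pos (P := Cnt j) (Or.inr ⟨i, hj.symm, rfl⟩)).symm

theorem complete {φ : Form N} (h : Valid.{0} φ) : Prov N φ := by
  by_contra hc
  have hT : IsTh {φ : Form N | Prov N φ} := ⟨fun _ h => h, fun _ _ h₁ h₂ => .mp h₁ h₂⟩
  obtain ⟨r, _, hr⟩ := lindenbaum hT hc
  apply hr
  exact (truth r φ [] trivial).1 (h (model r) (prof []) ⟨[], trivial, rfl⟩)

end Pool.Agent.Q297.GGM
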